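import Mathlib
import Pool.Agent.Helper11_PGL.StmtT

/-!
# Squad PGL, module COUNT
-/

open PGH Polynomial
open scoped IntermediateField

universe u v w

namespace PGL

namespace H46

/-- a large algebraically closed field -/
abbrev Om (k : Type u) [Field k] (v : ℕ) : Type u :=
  AlgebraicClosure (FractionRing (MvPolynomial (Fin v) k))

/-- the generic point -/
noncomputable def et (k : Type u) [Field k] (v : ℕ) (l : Fin v) : Om k v :=
  algebraMap (FractionRing (MvPolynomial (Fin v) k)) (Om k v)
    (algebraMap (MvPolynomial (Fin v) k) _ (MvPolynomial.X l))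

theorem exists_psi {k K : Type u} [Field k] [Field K] [Algebra k K] {v : ℕ} (z : Fin v → K)
    (h : AlgebraicIndependent k z) :
    ∃ ψ : IntermediateField.adjoin k (Set.range z) →ₐ[k] Om k v,
      ∀ l, ψ ⟨z l, IntermediateField.subset_adjoin _ _ ⟨l, rfl⟩⟩ = et k v l := by
  refine ⟨(IsScalarTower.toAlgHom k (FractionRing (MvPolynomial (Fin v) k)) (Om k v)).comp
    h.reprField, fun l => ?_⟩
  have h1 : h.reprField ⟨z l, IntermediateField.subset_adjoin _ _ ⟨l, rfl⟩⟩ =
      algebraMap (MvPolynomial (Fin v) k) _ (MvPolynomial.X l) := by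
    rw [AlgebraicIndependent.reprField]
    show h.aevalEquivField.symm _ = _
    rw [AlgEquiv.symm_apply_eq]
    apply Subtype.ext
    simp
  show (IsScalarTower.toAlgHom k (FractionRing (MvPolynomial (Fin v) k)) (Om k v))
    (h.reprField _) = _
  rw [h1]
  rfl

theorem finite_frac {k A K : Type u} [Field k] [CommRing A] [Algebra k A] [IsDomain A]
    [Algebra.FiniteType k A] [Field K] [Algebra k K] [Algebra A K] [IsScalarTower k A K]
    [IsFractionRing A K] {v : ℕ} (y : Fin v → A)
    (hi : ∀ a : A, IsIntegral (Algebra.adjoin k (Set.range y)) a) :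
    FiniteDimensional (IntermediateField.adjoin k (Set.range (fun l => algebraMap A K (y l)))) K := by
  classical
  set F := IntermediateField.adjoin k (Set.range (fun l => algebraMap A K (y l))) with hF
  have hmem : ∀ x ∈ Algebra.adjoin k (Set.range y), algebraMap A K x ∈ F := by
    intro x hx
    induction hx using Algebra.adjoin_induction with
    | mem x hx =>
      obtain ⟨l, rfl⟩ := hx
      exact IntermediateField.subset_adjoin _ _ ⟨l, rfl⟩
    | algebraMap r =>
      rw [← IsScalarTower.algebraMap_apply]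
      exact F.algebraMap_mem r
    | add x y _ _ hx hy => rw [map_add]; exact F.add_mem hx hy
    | mul x y _ _ hx hy => rw [map_mul]; exact F.mul_mem hx hy
  let φ : Algebra.adjoin k (Set.range y) →+* F :=
    { toFun := fun x => ⟨algebraMap A K x, hmem _ x.2⟩
      map_one' := by apply Subtype.ext; simp
      map_mul' := fun a b => by apply Subtype.ext; simp
      map_zero' := by apply Subtype.ext; simp
      map_add' := fun a b => by apply Subtype.ext; simp }
  have hint : ∀ a : A, IsIntegral F (algebraMap A K a) := fun a =>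
    IsIntegral.map_of_comp_eq φ (algebraMap A K) (by ext x; rfl) (hi a)
  obtain ⟨t, ht⟩ := (Algebra.FiniteType.out : (⊤ : Subalgebra k A).FG)
  have hfd : FiniteDimensional F (IntermediateField.adjoin F ((algebraMap A K) '' (t : Set A))) := by
    haveI : Finite ((algebraMap A K) '' (t : Set A)) := (t.finite_toSet.image _).to_subtype
    apply IntermediateField.finiteDimensional_adjoin
    rintro x ⟨a, _, rfl⟩
    exact hint a
  have htop : IntermediateField.adjoin F ((algebraMap A K) '' (t : Set A)) = ⊤ := by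
    rw [eq_top_iff]
    have hA : ∀ a : A, algebraMap A K a ∈ IntermediateField.adjoin F ((algebraMap A K) '' (t : Set A)) := by
      intro a
      have ha : a ∈ Algebra.adjoin k (t : Set A) := by rw [ht]; trivial
      induction ha using Algebra.adjoin_induction with
      | mem x hx => exact IntermediateField.subset_adjoin _ _ ⟨x, hx, rfl⟩
      | algebraMap r =>
        rw [← IsScalarTower.algebraMap_apply]
        have : algebraMap k K r = algebraMap F K (algebraMap k F r) := rfl
        rw [this]
        exact IntermediateField.algebraMap_mem _ _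
      | add x y _ _ hx hy => rw [map_add]; exact add_mem hx hy
      | mul x y _ _ hx hy => rw [map_mul]; exact mul_mem hx hy
    intro x _
    obtain ⟨a, b, hb, rfl⟩ := IsFractionRing.div_surjective (A := A) x
    exact div_mem (hA a) (hA b)
  rw [htop] at hfd
  exact Module.Finite.equiv (IntermediateField.topEquiv (F := F) (E := K)).toLinearEquiv

/-- the number of homomorphisms with kernel `P`, for a given embedding of the base field -/
theorem count_aux {k A : Type u} [Field k] [CharZero k] [CommRing A] [Algebra k A]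
    {v : ℕ} (y : Fin v → A) (P : Ideal A) [P.IsPrime]
    (K : Type u) [Field K] [Algebra k K] [Algebra (A ⧸ P) K] [IsScalarTower k (A ⧸ P) K]
    [IsFractionRing (A ⧸ P) K] (Ω : Type u) [Field Ω] [Algebra k Ω] [IsAlgClosed Ω]
    (e : Fin v → Ω) (F : IntermediateField k K)
    (hF : F = IntermediateField.adjoin k
          (Set.range (fun l => algebraMap (A ⧸ P) K (Ideal.Quotient.mk P (y l)))))
    (hfd : FiniteDimensional F K)
    (ψ : F →ₐ[k] Ω)
    (hψ : ∀ l (h : algebraMap (A ⧸ P) K (Ideal.Quotient.mk P (y l)) ∈ F), ψ ⟨_, h⟩ = e l) :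
    Module.finrank F K =
        Nat.card {χ : A →ₐ[k] Ω // (∀ l, χ (y l) = e l) ∧ RingHom.ker χ = P} := by
  classical
  have hinj : Function.Injective (algebraMap (A ⧸ P) K) := IsFractionRing.injective (A ⧸ P) K
  have hmem : ∀ l, algebraMap (A ⧸ P) K (Ideal.Quotient.mk P (y l)) ∈ F := fun l => by
    rw [hF]
    exact IntermediateField.subset_adjoin _ _ ⟨l, rfl⟩
  letI : Algebra F Ω := ψ.toRingHom.toAlgebra
  haveI : CharZero F := charZero_of_injective_algebraMap (algebraMap k F).injective
  have hcard : Nat.card (K →ₐ[F] Ω) = Module.finrank F K := by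
    rw [← AlgHom.card F K Ω, Nat.card_eq_fintype_card]
  rw [← hcard]
  have hcomp : ∀ φ : K →ₐ[F] Ω, ∀ x : F, φ (x : K) = ψ x := fun φ x => φ.commutes x
  have hkK : ∀ c : k, algebraMap k K c = ((algebraMap k F c : F) : K) := fun c => rfl
  let toK : A →+* K := (algebraMap (A ⧸ P) K).comp (Ideal.Quotient.mk P)
  have htoK : ∀ a, toK a = algebraMap (A ⧸ P) K (Ideal.Quotient.mk P a) := fun a => rfl
  have hkA : ∀ c : k, toK (algebraMap k A c) = algebraMap k K c := by
    intro c
    rw [htoK]
    exact (IsScalarTower.algebraMap_apply k (A ⧸ P) K c).symm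
  let g : (K →ₐ[F] Ω) → (A →ₐ[k] Ω) := fun φ =>
    { (φ.toRingHom.comp toK) with
      commutes' := fun c => by
        show φ (toK (algebraMap k A c)) = _
        rw [hkA, hkK, hcomp]
        exact ψ.commutes c }
  have hg : ∀ φ a, g φ a = φ (algebraMap (A ⧸ P) K (Ideal.Quotient.mk P a)) := fun _ _ => rfl
  let f : (K →ₐ[F] Ω) → {χ : A →ₐ[k] Ω // (∀ l, χ (y l) = e l) ∧ RingHom.ker χ = P} :=
    fun φ => ⟨g φ, fun l => by
      rw [hg, ← hψ l (hmem l)]
      exact hcomp φ ⟨_, hmem l⟩, by
      ext a
      rw [RingHom.mem_ker, hg, map_eq_zero, map_eq_zero_iff _ hinj,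
        Ideal.Quotient.eq_zero_iff_mem]⟩
  apply Nat.card_eq_of_bijective f
  constructor
  · intro φ₁ φ₂ h
    have h' : ∀ a : A, φ₁ (algebraMap (A ⧸ P) K (Ideal.Quotient.mk P a)) =
        φ₂ (algebraMap (A ⧸ P) K (Ideal.Quotient.mk P a)) := by
      intro a
      have := congrArg (fun χ => χ.1 a) h
      exact this
    apply AlgHom.ext
    intro x
    obtain ⟨a, b, hb, rfl⟩ := IsFractionRing.div_surjective (A := A ⧸ P) x
    obtain ⟨a, rfl⟩ := Ideal.Quotient.mk_surjective a
    obtain ⟨b, rfl⟩ := Ideal.Quotient.mk_surjective b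
    rw [map_div₀, map_div₀, h' a, h' b]
  · rintro ⟨χ, hχ, hker⟩
    have hq : ∀ a ∈ P, χ a = 0 := by
      intro a ha
      rw [← hker] at ha
      exact ha
    let χ' : A ⧸ P →ₐ[k] Ω := Ideal.Quotient.liftₐ P χ hq
    have hχ' : ∀ a, χ' (Ideal.Quotient.mk P a) = χ a := fun a => rfl
    have hinj' : Function.Injective χ' := by
      rw [injective_iff_map_eq_zero]
      intro a ha
      obtain ⟨a, rfl⟩ := Ideal.Quotient.mk_surjective a
      rw [hχ'] at ha
      rw [Ideal.Quotient.eq_zero_iff_mem, ← hker]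
      exact ha
    let Φ : K →ₐ[k] Ω := IsFractionRing.liftAlgHom hinj'
    have hΦ : ∀ a : A ⧸ P, Φ (algebraMap (A ⧸ P) K a) = χ' a := fun a =>
      IsFractionRing.lift_algebraMap hinj' a
    have hΨ : ∀ x : F, Φ (x : K) = ψ x := by
      subst hF
      have hΨ' : Φ.comp (IntermediateField.adjoin k
          (Set.range (fun l => algebraMap (A ⧸ P) K (Ideal.Quotient.mk P (y l))))).val = ψ := by
        apply IntermediateField.algHom_ext_of_eq_adjoin _ rfl
        rintro x ⟨l, rfl⟩
        rw [hψ l]
        show Φ (algebraMap (A ⧸ P) K (Ideal.Quotient.mk P (y l))) = _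
        rw [hΦ, hχ', hχ]
      intro x
      exact congrArg (fun g => g x) hΨ'
    let Φ' : K →ₐ[F] Ω := { Φ.toRingHom with
      commutes' := fun x => hΨ x }
    refine ⟨Φ', ?_⟩
    apply Subtype.ext
    apply AlgHom.ext
    intro a
    show Φ (algebraMap (A ⧸ P) K (Ideal.Quotient.mk P a)) = χ a
    rw [hΦ, hχ']

/-- the main step: the number of homomorphisms with kernel `P` is the degree -/
theorem count_one {k A : Type u} [Field k] [CharZero k] [CommRing A] [Algebra k A]
    [Algebra.FiniteType k A] {v : ℕ} (y : Fin v → A) (P : Ideal A) [P.IsPrime]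
    (hy : AlgebraicIndependent k (fun l => Ideal.Quotient.mk P (y l)))
    (hi : ∀ a : A ⧸ P,
        IsIntegral (Algebra.adjoin k (Set.range (fun l => Ideal.Quotient.mk P (y l)))) a)
    (K : Type u) [Field K] [Algebra k K] [Algebra (A ⧸ P) K] [IsScalarTower k (A ⧸ P) K]
        [IsFractionRing (A ⧸ P) K] :
        FiniteDimensional (IntermediateField.adjoin k
          (Set.range (fun l => algebraMap (A ⧸ P) K (Ideal.Quotient.mk P (y l))))) K ∧
        Module.finrank (IntermediateField.adjoin k
          (Set.range (fun l => algebraMap (A ⧸ P) K (Ideal.Quotient.mk P (y l))))) K =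
        Nat.card {χ : A →ₐ[k] Om k v // (∀ l, χ (y l) = et k v l) ∧ RingHom.ker χ = P} := by
  have hfd := finite_frac (K := K) (fun l => Ideal.Quotient.mk P (y l)) hi
  refine ⟨hfd, ?_⟩
  have hinj : Function.Injective (algebraMap (A ⧸ P) K) := IsFractionRing.injective (A ⧸ P) K
  have hz : AlgebraicIndependent k (fun l => algebraMap (A ⧸ P) K (Ideal.Quotient.mk P (y l))) := by
    have := hy.map' (f := IsScalarTower.toAlgHom k (A ⧸ P) K) hinj
    exact this
  obtain ⟨ψ, hψ⟩ := exists_psi _ hz
  exact count_aux y P K (Om k v) (et k v) _ rfl hfd ψ (fun l _ => hψ l)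

end H46

open H46 in
theorem H46_count : CountStmt.{u} := by
  intro k A _ _ _ _ _ _ v y s B hs hB
  classical
  let Sset : Ideal A → Set (A →ₐ[k] Om k v) := fun P =>
    {χ | (∀ l, χ (y l) = et k v l) ∧ RingHom.ker χ = P}
  let big : Set (A →ₐ[k] Om k v) :=
    {χ | (∀ l, χ (y l) = et k v l) ∧ ∃ 𝔭 ∈ s, ∀ a ∈ 𝔭, χ a = 0}
  have hbig : big.encard ≤ B := hB (Om k v) (et k v)
  have hfin : big.Finite := Set.finite_of_encard_le_coe hbig
  have hsub : ∀ P ∈ s, Sset P ⊆ big := by
    rintro P hP χ ⟨h1, h2⟩
    refine ⟨h1, P, hP, fun a ha => ?_⟩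
    rw [← h2] at ha
    exact ha
  have hdisj : ∀ P ∈ s, ∀ Q ∈ s, P ≠ Q → Disjoint (Sset P) (Sset Q) := by
    intro P _ Q _ hPQ
    rw [Set.disjoint_left]
    rintro χ ⟨_, h1⟩ ⟨_, h2⟩
    exact hPQ (h1.symm.trans h2)
  refine ⟨fun P => (Sset P).ncard, ?_, ?_⟩
  · have h1 : ∀ P ∈ s, (Sset P).Finite := fun P hP => hfin.subset (hsub P hP)
    have h2 : ∑ P ∈ s, (Sset P).ncard = (⋃ P ∈ s, Sset P).ncard := by
      have h3 : ∀ P ∈ s, ((Sset P).ncard) = (if h : (Sset P).Finite then h.toFinset else ∅).card := by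
        intro P hP
        rw [dif_pos (h1 P hP), Set.ncard_eq_toFinset_card _ (h1 P hP)]
      rw [Finset.sum_congr rfl h3, ← Finset.card_biUnion]
      · rw [← Set.ncard_coe_finset]
        congr 1
        ext χ
        simp only [Finset.coe_biUnion, Set.mem_iUnion, Finset.mem_coe, exists_prop]
        constructor
        · rintro ⟨P, hP, h⟩
          rw [dif_pos (h1 P hP)] at h
          exact ⟨P, hP, by simpa using h⟩
        · rintro ⟨P, hP, h⟩
          refine ⟨P, hP, ?_⟩
          rw [dif_pos (h1 P hP)]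
          simpa using h
      · intro P hP Q hQ hPQ
        rw [Function.onFun, dif_pos (h1 P hP), dif_pos (h1 Q hQ), Finset.disjoint_left]
        intro χ h4 h5
        rw [Set.Finite.mem_toFinset] at h4 h5
        exact Set.disjoint_left.1 (hdisj P hP Q hQ hPQ) h4 h5
    have h4 : (⋃ P ∈ s, Sset P) ⊆ big := by
      intro χ hχ
      simp only [Set.mem_iUnion, exists_prop] at hχ
      obtain ⟨P, hP, h⟩ := hχ
      exact hsub P hP h
    have h5 : big.ncard ≤ B := by
      rw [Set.ncard_def]
      exact ENat.toNat_le_of_le_natCast hbig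
    calc ∑ P ∈ s, (Sset P).ncard = (⋃ P ∈ s, Sset P).ncard := h2
      _ ≤ big.ncard := Set.ncard_le_ncard h4 hfin
      _ ≤ B := h5
  · intro P hP
    obtain ⟨hprime, hy, hi⟩ := hs P hP
    haveI := hprime
    have key : ∀ (K : Type u) [Field K] [Algebra k K] [Algebra (A ⧸ P) K]
        [IsScalarTower k (A ⧸ P) K] [IsFractionRing (A ⧸ P) K],
        FiniteDimensional (IntermediateField.adjoin k
          (Set.range (fun l => algebraMap (A ⧸ P) K (Ideal.Quotient.mk P (y l))))) K ∧
        Module.finrank (IntermediateField.adjoin k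
          (Set.range (fun l => algebraMap (A ⧸ P) K (Ideal.Quotient.mk P (y l))))) K =
          (Sset P).ncard := by
      intro K _ _ _ _ _
      obtain ⟨h1, h2⟩ := count_one y P hy hi K
      refine ⟨h1, h2.trans ?_⟩
      exact Nat.card_coe_set_eq (Sset P)
    refine ⟨?_, key⟩
    obtain ⟨h1, h2⟩ := key (FractionRing (A ⧸ P))
    show 0 < (Sset P).ncard
    rw [← h2]
    haveI := h1
    exact Module.finrank_pos

end PGL
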